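import Pool.Agent.H98.RFT.Targets2
import Pool.Agent.H10.RFZ.B1

/-!
# Almost straight paths in the double model (row B1 of the board rft)
-/

set_option autoImplicit false

namespace Pool.Agent.H70.RFT

open Pool.Agent.H98.RFC Pool.Agent.H98.RFZ Pool.Agent.H98.RFT
open Pool.Agent.H10.RFZ (nsq_cast nsq_nonneg nrm_sq nrm_nonneg nrm_neg nrm_add nrm_sub nrm_le_iff
  mem_eb grid chord chord2 Nq_sq nrm_pos fin1 fin2)

/-- the length of a step -/
theorem stepb_le {R : ℕ} (z : Site) (h1 : z ∈ box R) : nrm z ≤ 2 * R := by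
  unfold box at h1
  rw [Finset.mem_product, Finset.mem_Icc, Finset.mem_Icc] at h1
  obtain ⟨⟨a1, a2⟩, a3, a4⟩ := h1
  have h2 : (2 * (R : ℝ)) = ((2 * R : ℕ) : ℝ) := by push_cast; ring
  rw [h2, nrm_le_iff]
  unfold nsq
  push_cast
  have h3 : z.1 ^ 2 ≤ (R : ℤ) ^ 2 := sq_le_sq' a1 a2
  have h4 : z.2 ^ 2 ≤ (R : ℤ) ^ 2 := sq_le_sq' a3 a4
  nlinarith [sq_nonneg (R : ℤ)]

/-- the length of a step along an open edge -/
theorem step_le {R : ℕ} {ω : Finset (Site × Site)} (hω : ∀ e ∈ ω, e.2 - e.1 ∈ box R)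
    {a b : Site} (h : opn ω a b) : nrm (b - a) ≤ 2 * R := by
  rcases h with h | h
  · exact stepb_le _ (hω _ h)
  · rw [← nrm_neg, neg_sub]
    exact stepb_le _ (hω _ h)

/-- a piece of the path up to the first exit from a ball is slow -/
theorem piece {R : ℕ} {D : Set Site} {ω : Finset (Site × Site)}
    (hω : ∀ e ∈ ω, e.2 - e.1 ∈ box R)
    (N : Site → ℝ) (v m : ℕ) (hv : 20 * R + 20 ≤ v) (hm : 8 * v ≤ m)
    (hgood : ∀ y : Site, sm v y ∈ eb 0 (9 * m) → ¬ BadT N v (sm v y) D ω)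
    (k : ℕ) (x : ℕ → Site) (hx : OPath D ω k x)
    (hin : ∀ i, i ≤ k → x i ∈ eb 0 (8 * m)) (i i' : ℕ) (hii : i < i') (hk : i' ≤ k)
    (hnear : ∀ l, i ≤ l → l < i' → nrm (x l - x i) < v)
    (hfar : (v : ℤ) ^ 2 ≤ nsq (x i' - x i)) : N (x i' - x i) ≤ (i' : ℝ) - i := by
  by_contra hlt
  push Not at hlt
  have hv0 : 0 < v := by omega
  obtain ⟨y, hy⟩ := grid v hv0 (x i)
  have hR : (20 * (R : ℝ) + 20) ≤ v := by exact_mod_cast hv
  have hm' : (8 * (v : ℝ)) ≤ m := by exact_mod_cast hm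
  have hv' : (0 : ℝ) < v := by exact_mod_cast hv0
  have hxi : nrm (x i) ≤ 8 * m := by
    have h1 := (mem_eb 0 (x i) (8 * m)).1 (hin i (by omega))
    rw [sub_zero] at h1
    push_cast at h1
    exact h1
  have hz : nrm (sm v y) ≤ 8 * m + 2 * v := by
    have h1 := nrm_sub (sm v y) (x i) 0
    rw [sub_zero, sub_zero] at h1
    have h2 : nrm (sm v y - x i) = nrm (x i - sm v y) := by rw [← nrm_neg, neg_sub]
    linarith
  have hpt : ∀ l, i ≤ l → l ≤ i' → nrm (x l - x i) ≤ 11 / 10 * v := by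
    intro l h1 h2
    rcases Nat.lt_or_ge l i' with h3 | h3
    · have := hnear l h1 h3
      linarith
    · have h4 : l = i' := le_antisymm h2 h3
      subst h4
      obtain ⟨l', rfl⟩ : ∃ l', l = l' + 1 := ⟨l - 1, by omega⟩
      have h5 := nrm_sub (x (l' + 1)) (x l') (x i)
      have h6 := step_le hω (hx.2 l' (by omega))
      have h7 := hnear l' (by omega) (by omega)
      linarith
  have hptz : ∀ l, i ≤ l → l ≤ i' → nrm (x l - sm v y) ≤ 4 * v := by
    intro l h1 h2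
    have h3 := nrm_sub (x l) (x i) (sm v y)
    have h4 := hpt l h1 h2
    linarith
  refine hgood y ?_ ⟨i' - i, fun l => x (i + l), ⟨?_, ?_⟩, ?_, ?_, ?_, ?_⟩
  · rw [mem_eb, sub_zero]
    push_cast
    linarith
  · intro l hl
    exact hx.1 (i + l) (by omega)
  · intro l hl
    exact hx.2 (i + l) (by omega)
  · intro l hl
    rw [mem_eb]
    have := hptz (i + l) (by omega) (by omega)
    push_cast
    linarith
  · rw [mem_eb]
    push_cast
    exact hy
  · show (v : ℤ) ^ 2 ≤ nsq (x (i + (i' - i)) - x (i + 0))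
    rw [add_zero, Nat.add_sub_cancel' hii.le]
    exact hfar
  · show ((i' - i : ℕ) : ℝ) < N (x (i + (i' - i)) - x (i + 0))
    rw [add_zero, Nat.add_sub_cancel' hii.le, Nat.cast_sub hii.le]
    exact hlt

/-- the chain of first exits -/
theorem chain {R : ℕ} {D : Set Site} {ω : Finset (Site × Site)}
    (hω : ∀ e ∈ ω, e.2 - e.1 ∈ box R)
    (N : Site → ℝ) (α β : ℝ) (hN : IsN N α β) (v m : ℕ) (hv : 20 * R + 20 ≤ v) (hm : 8 * v ≤ m)
    (hgood : ∀ y : Site, sm v y ∈ eb 0 (9 * m) → ¬ BadT N v (sm v y) D ω)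
    (k : ℕ) (x : ℕ → Site) (hx : OPath D ω k x)
    (hin : ∀ i, i ≤ k → x i ∈ eb 0 (8 * m)) :
    ∀ n i l : ℕ, l - i = n → i ≤ l → l ≤ k →
      ∃ j, i ≤ j ∧ j ≤ l ∧ nrm (x l - x j) < v ∧ N (x j - x i) ≤ (j : ℝ) - i := by
  intro n
  induction n using Nat.strong_induction_on with
  | _ n ih =>
  intro i l hn hil hlk
  have hv0 : (0 : ℝ) < v := by exact_mod_cast (by omega : 0 < v)
  have hnrm0 : nrm 0 = 0 := by
    unfold nrm
    rw [nsq_cast]
    simp
  by_cases hclose : nrm (x l - x i) < v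
  · refine ⟨i, le_rfl, hil, hclose, ?_⟩
    rw [sub_self, sub_self]
    have := (hN.2.2 0).2
    rw [hnrm0, mul_zero] at this
    exact this
  · classical
    have hex : ∃ l', i < l' ∧ ¬ nrm (x l' - x i) < v := by
      refine ⟨l, ?_, hclose⟩
      rcases hil.lt_or_eq with h1 | h1
      · exact h1
      · subst h1
        rw [sub_self, hnrm0] at hclose
        exact absurd hv0 hclose
    set i' := Nat.find hex with hi'
    obtain ⟨h1, h2⟩ := Nat.find_spec hex
    rw [← hi'] at h1 h2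
    have h3 : i' ≤ l := by
      refine Nat.find_min' hex ⟨?_, hclose⟩
      rcases hil.lt_or_eq with h4 | h4
      · exact h4
      · subst h4
        rw [sub_self, hnrm0] at hclose
        exact absurd hv0 hclose
    have hnear : ∀ l', i ≤ l' → l' < i' → nrm (x l' - x i) < v := by
      intro l' h4 h5
      rcases h4.lt_or_eq with h6 | h6
      · by_contra h7
        exact Nat.find_min hex h5 ⟨h6, h7⟩
      · subst h6
        rw [sub_self, hnrm0]
        exact hv0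
    have hfar : (v : ℤ) ^ 2 ≤ nsq (x i' - x i) := by
      push Not at h2
      have h4 := pow_le_pow_left₀ hv0.le h2 2
      rw [nrm_sq] at h4
      exact_mod_cast h4
    have h5 := piece hω N v m hv hm hgood k x hx hin i i' h1 (by omega) hnear hfar
    obtain ⟨j, j1, j2, j3, j4⟩ := ih (l - i') (by omega) i' l rfl h3 hlk
    refine ⟨j, by omega, j2, j3, ?_⟩
    have h6 := hN.1 (x j - x i') (x i' - x i)
    rw [sub_add_sub_cancel] at h6
    linarith

set_option maxHeartbeats 4000000 in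
/-- B1: almost straight paths -/
theorem pf_B1 (hNQ : B_NQ) : T_B1 := by
  intro R D ω hω p a b a' b' α β θ κ φ A A' u v hp hα hαβ haα haβ hbα hbβ ha' hb' hθ hθ1 hκ hκ1
    hφ hF hG hA hA' hAθ hAκ hκA hAv hv hgood k x hx hin hx0 hX hk
  have hβ : 0 < β := lt_of_lt_of_le hα hαβ
  obtain ⟨hN, -, -⟩ := hNQ p a b α β hp hα hβ haα haβ hbα hbβ
  have hnp := nrm_pos hp
  have hm : 8 * v ≤ A' * u := by
    have h1 : v ≤ u := le_trans (Nat.le_mul_of_pos_left v (by omega)) hAv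
    exact Nat.mul_le_mul hA' h1
  have hch := chain hω (Nq p a b) α β hN v (A' * u) hv hm hgood k x hx hin
  set X := x k - x 0 with hXdef
  have hv' : (0 : ℝ) < v := by exact_mod_cast (by omega : 0 < v)
  have hAv' : (A : ℝ) * v ≤ u := by exact_mod_cast hAv
  have hA'' : (8 : ℝ) ≤ A := by exact_mod_cast hA
  have hA''' : (8 : ℝ) ≤ A' := by exact_mod_cast hA'
  have h8v : (8 : ℝ) * v ≤ A * v := mul_le_mul_of_nonneg_right hA'' hv'.le
  have hu0 : (0 : ℝ) < u := by linarith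
  have hXn : (A' : ℝ) * u ≤ nrm X := by
    refine (sq_le_sq₀ (by positivity) (nrm_nonneg _)).1 ?_
    rw [nrm_sq]
    have : (((A' * u : ℕ) : ℤ) ^ 2 : ℤ) ≤ nsq X := hX
    have h2 : ((((A' * u : ℕ) : ℤ) ^ 2 : ℤ) : ℝ) ≤ (nsq X : ℝ) := by exact_mod_cast this
    push_cast at h2
    exact h2
  have hNX : α * (A' * u) ≤ Nq p a b X :=
    (mul_le_mul_of_nonneg_left hXn hα.le).trans (hN.2.2 X).1
  have hNX0 : 0 < Nq p a b X := lt_of_lt_of_le (by positivity) hNX
  -- `β v` is small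
  have hsmall : ∀ c : ℝ, 0 < c → β / α ≤ A * A' * c → β * v ≤ c * Nq p a b X := by
    intro c hc h1
    rw [div_le_iff₀ hα] at h1
    calc β * v ≤ (A * A' * c * α) * v := mul_le_mul_of_nonneg_right h1 hv'.le
      _ = (A * v) * (A' * c * α) := by ring
      _ ≤ u * (A' * c * α) := mul_le_mul_of_nonneg_right hAv' (by positivity)
      _ = c * (α * (A' * u)) := by ring
      _ ≤ c * Nq p a b X := mul_le_mul_of_nonneg_left hNX hc.le
  have hbv1 := hsmall θ hθ hAθ
  have hbv2 := hsmall κ hκ hAκ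
  -- the rest of a chain
  have hrest : ∀ i, i ≤ k → Nq p a b (x k - x i) ≤ β * v + (k - i) := by
    intro i hi
    obtain ⟨j, j1, j2, j3, j4⟩ := hch (k - i) i k rfl hi le_rfl
    have h1 := hN.1 (x k - x j) (x j - x i)
    rw [sub_add_sub_cancel] at h1
    have h2 := (hN.2.2 (x k - x j)).2
    have h3 : β * nrm (x k - x j) ≤ β * v := mul_le_mul_of_nonneg_left j3.le hβ.le
    have h4 : (j : ℝ) ≤ k := by exact_mod_cast j2
    linarith
  refine ⟨?_, ?_⟩
  · by_contra hcon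
    push Not at hcon
    have h1 := hF X hcon
    have h2 := hrest 0 (Nat.zero_le _)
    rw [← hXdef] at h2
    push_cast at h2
    linarith
  · intro i hi
    obtain ⟨j, -, j2, j3, j4⟩ := hch (i - 0) 0 i rfl (Nat.zero_le _) hi
    have hjk : j ≤ k := j2.trans hi
    have hZ := hrest j hjk
    push_cast at j4
    rw [sub_zero] at j4
    have hG' := hG X
    have hYZ : Nq p a b (x j - x 0) + Nq p a b (x k - x j) ≤ (1 + 2 * κ) * Nq p a b X := by
      linarith
    have hY0 : 0 ≤ Nq p a b (x j - x 0) :=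
      (mul_nonneg hα.le (nrm_nonneg _)).trans (hN.2.2 _).1
    have hZ0 : 0 ≤ Nq p a b (x k - x j) :=
      (mul_nonneg hα.le (nrm_nonneg _)).trans (hN.2.2 _).1
    have hsub := hN.1 (x j - x 0) (x k - x j)
    have hXe : (x j - x 0) + (x k - x j) = X := by rw [hXdef]; abel
    rw [hXe] at hsub
    obtain ⟨t, ht0, ht1, ht⟩ := chord2 _ _ _ κ hY0 hZ0 hNX0 hsub hκ hκ1 hYZ
    have ha0 : 0 ≤ a := (sq_nonneg α).trans haα
    have hb0 : 0 ≤ b := (sq_nonneg α).trans hbα
    have e1 := Nq_sq p a b hnp ha0 hb0 (x j - x 0)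
    have e2 := Nq_sq p a b hnp ha0 hb0 (x k - x j)
    have e3 := Nq_sq p a b hnp ha0 hb0 X
    have eg : (gdot p X : ℝ) = (gdot p (x j - x 0) : ℝ) + (gdot p (x k - x j) : ℝ) := by
      rw [← hXe]
      unfold gdot
      simp only [Prod.fst_add, Prod.snd_add]
      push_cast
      ring
    have ef : (fdet p X : ℝ) = (fdet p (x j - x 0) : ℝ) + (fdet p (x k - x j) : ℝ) := by
      rw [← hXe]
      unfold fdet
      simp only [Prod.fst_add, Prod.snd_add]
      push_cast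
      ring
    rw [eg, ef] at e3
    -- the vector from the chord to `x j`
    set W1 : ℝ := ((x j - x 0).1 : ℝ) - t * (X.1 : ℝ) with hW1
    set W2 : ℝ := ((x j - x 0).2 : ℝ) - t * (X.2 : ℝ) with hW2
    have hw : ((gdot p (x j - x 0) : ℝ) - t * ((gdot p (x j - x 0) : ℝ) + (gdot p (x k - x j) : ℝ))) ^ 2 +
        ((fdet p (x j - x 0) : ℝ) - t * ((fdet p (x j - x 0) : ℝ) + (fdet p (x k - x j) : ℝ))) ^ 2 =
        nrm p ^ 2 * (W1 ^ 2 + W2 ^ 2) := by
      rw [← eg, ← ef, nrm_sq, nsq_cast, hW1, hW2]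
      unfold gdot fdet
      push_cast
      ring
    have hc := chord α a b _ _ _ _ t _ _ _ (nrm p ^ 2) (by positivity) e1 e2 e3 (W1 ^ 2 + W2 ^ 2)
      haα hbα hw
    have hXle : nrm X ≤ 10 * (A' * u) := by
      have h1 := nrm_sub (x k) 0 (x 0)
      rw [sub_zero, zero_sub, nrm_neg] at h1
      have h2 := (mem_eb 0 (x k) _).1 (hin k le_rfl)
      have h3 := (mem_eb 0 (x 0) _).1 hx0
      rw [sub_zero] at h2 h3
      push_cast at h2 h3
      rw [hXdef]
      linarith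
    have hNXle : Nq p a b X ≤ β * (10 * (A' * u)) :=
      (hN.2.2 X).2.trans (mul_le_mul_of_nonneg_left hXle hβ.le)
    have hNX2 : Nq p a b X ^ 2 ≤ (β * (10 * (A' * u))) ^ 2 := pow_le_pow_left₀ hNX0.le hNXle 2
    have hWle : W1 ^ 2 + W2 ^ 2 ≤ (u : ℝ) ^ 2 / 200 :=
      fin1 α β κ A' u (W1 ^ 2 + W2 ^ 2) _ hα hβ (by linarith) (hc.trans ht) hκA hNX2
    refine ⟨t, ht0, ht1, ?_⟩
    have hd : ((x i - x j).1 : ℝ) ^ 2 + ((x i - x j).2 : ℝ) ^ 2 ≤ (v : ℝ) ^ 2 := by
      rw [← nsq_cast, ← nrm_sq]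
      exact pow_le_pow_left₀ (nrm_nonneg _) j3.le 2
    have hvu : (v : ℝ) ≤ u / 8 := by linarith
    have hv2 : (v : ℝ) ^ 2 ≤ (u / 8) ^ 2 := pow_le_pow_left₀ hv'.le hvu 2
    have c1 : ((x i).1 : ℝ) - (((x 0).1 : ℝ) + t * (((x k).1 : ℝ) - ((x 0).1 : ℝ))) =
        ((x i - x j).1 : ℝ) + W1 := by
      rw [hW1, hXdef]
      simp only [Prod.fst_sub]
      push_cast
      ring
    have c2 : ((x i).2 : ℝ) - (((x 0).2 : ℝ) + t * (((x k).2 : ℝ) - ((x 0).2 : ℝ))) =
        ((x i - x j).2 : ℝ) + W2 := by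
      rw [hW2, hXdef]
      simp only [Prod.snd_sub]
      push_cast
      ring
    rw [c1, c2]
    exact fin2 _ _ _ _ _ _ hd hv2 hWle

end Pool.Agent.H70.RFT
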