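import Pool.Agent.H98.RFT.Basic
import Pool.Agent.H65.RFZ.QLOW
import Pool.Agent.H65.RFZ.QCHB

/-!
Row LOW3 of the board rft_modules: lower bound for the influence in a box under a shift.
-/

set_option autoImplicit false

noncomputable section

open MeasureTheory ProbabilityTheory

namespace Pool.Agent.H70.RFT

open Pool.Agent.H98.RFC Pool.Agent.H98.RFZ Pool.Agent.H98.RFT Pool.Agent.H65.RFZ.QLOW

theorem pf_LOW3 (hSHI : R_SHI) (hBZ : R_BZ) (hGL : Z_GL) (hIND : Z_IND) (hINF : D_INF)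
    (hCNT : D_CNT) : R_LOW := by
  classical
  have hCHB : Q_CHB := Pool.Agent.H65.RFZ.QCHB.pf_QCHB
  intro R J hJ hR hT hJt δ₀ A C hC hδ0 hδ1 hA
  have hC1 : 1 ≤ C := by omega
  have hC0 : (0 : ℝ) < (C : ℝ) := by exact_mod_cast hC1
  refine ⟨C + ⌈300 * (C : ℝ) / δ₀⌉₊ + ⌈5 * A * (C : ℝ)⌉₊, ?_⟩
  intro n hn T ε c s u hTpos hc hu hs hδ hshield
  have := gam_prob
  have hnC : C ≤ n := by omega
  have hn1 : 300 * (C : ℝ) / δ₀ ≤ n := by
    refine (Nat.le_ceil _).trans ?_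
    exact_mod_cast (by omega : ⌈300 * (C : ℝ) / δ₀⌉₊ ≤ n)
  have hn2 : 5 * A * (C : ℝ) ≤ n := by
    refine (Nat.le_ceil _).trans ?_
    exact_mod_cast (by omega : ⌈5 * A * (C : ℝ)⌉₊ ≤ n)
  have hn0 : (0 : ℝ) < n := lt_of_lt_of_le (by positivity) hn2
  have hu1 : 1 ≤ u := by omega
  have hu0 : (0 : ℝ) < u := by exact_mod_cast hu1
  have hRpos : (0 : ℝ) < R := by exact_mod_cast hR
  -- the cells
  obtain ⟨m, hm1, hm2⟩ : ∃ m : ℕ, (3 * m + 1) * C ≤ n ∧ n < (3 * m + 4) * C := by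
    have h1 : 1 ≤ n / C := (Nat.one_le_div_iff hC1).2 hnC
    refine ⟨(n / C - 1) / 3, ?_, ?_⟩
    · have h2 : 3 * ((n / C - 1) / 3) + 1 ≤ n / C := by omega
      exact (Nat.mul_le_mul_right _ h2).trans (Nat.div_mul_le_self _ _)
    · have h2 : n / C + 1 ≤ 3 * ((n / C - 1) / 3) + 4 := by omega
      refine lt_of_lt_of_le ?_ (Nat.mul_le_mul_right _ h2)
      have h3 := Nat.lt_mul_div_succ n hC1
      rw [Nat.mul_comm] at h3
      exact h3
  set I : Finset Site := box m with hI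
  have hIcard : I.card = (2 * m + 1) ^ 2 := by
    rw [hI]
    unfold box
    rw [Finset.card_product, Int.card_Icc]
    have h2 : ((m : ℤ) + 1 - (-(m : ℤ))).toNat = 2 * m + 1 := by omega
    rw [h2, sq]
  have hIn : (n : ℝ) ^ 2 / (100 * (C : ℝ) ^ 2) ≤ (I.card : ℝ) := by
    rw [div_le_iff₀ (by positivity), hIcard]
    have h1 : n ≤ 10 * C * (2 * m + 1) := by nlinarith
    have h2 : (n : ℝ) ≤ 10 * C * (2 * m + 1) := by exact_mod_cast h1
    push_cast
    nlinarith [pow_le_pow_left₀ hn0.le h2 2]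
  have hIbig : 800 / δ₀ ^ 2 ≤ (I.card : ℝ) := by
    refine le_trans ?_ hIn
    rw [div_le_div_iff₀ (by positivity) (by positivity)]
    have h1 : 300 * (C : ℝ) ≤ n * δ₀ := by
      rwa [div_le_iff₀ hδ0] at hn1
    nlinarith [pow_le_pow_left₀ (by positivity : (0 : ℝ) ≤ 300 * (C : ℝ)) h1 2]
  have hIpos : (0 : ℝ) < (I.card : ℝ) := lt_of_lt_of_le (by positivity) hIbig
  set V : Finset Site := box (n * u) with hV
  set Λ : Finset Site := box (8 * (n * u)) with hΛ
  set r : ℕ := C * u with hr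
  have hr1 : 1 ≤ r := Nat.one_le_iff_ne_zero.2 (Nat.mul_ne_zero (by omega) (by omega))
  set z : Site → Site := zc (3 * r) with hz
  have hVΛ : V ⊆ Λ := by
    intro x hx
    rw [hV] at hx
    rw [hΛ]
    unfold box at hx ⊢
    rw [Finset.mem_product, Finset.mem_Icc, Finset.mem_Icc] at hx ⊢
    push_cast at hx ⊢
    have h1 : (0 : ℤ) ≤ (n : ℤ) * u := by positivity
    refine ⟨⟨?_, ?_⟩, ?_, ?_⟩ <;> linarith [hx.1.1, hx.1.2, hx.2.1, hx.2.2]
  have hYV : ∀ w ∈ I, eb (z w) r ⊆ V := by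
    intro w hw
    refine eb_sub_box hw ?_
    calc 3 * r * m + r = ((3 * m + 1) * C) * u := by rw [hr]; ring
      _ ≤ n * u := Nat.mul_le_mul_right _ hm1
  -- the events
  let Aw : Site → Set (Site → ℝ) := fun w => {η | c ≤ bz R J (fun x => ε * η x) T u C (z w)}
  let X : Site → Set (Site → ℝ) := fun w => {η | shf V s η ∈ Aw w}
  have hAwm : ∀ w, MeasurableSet (Aw w) := fun w =>
    measurableSet_le measurable_const (hBZ R J hJ T ε hTpos u C (z w) hC).1
  have hXm : ∀ w, MeasurableSet (X w) := fun w => shf_meas V s (hAwm w)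
  have hAwl : ∀ w, ∀ η η' : Site → ℝ, (∀ x ∈ eb (z w) r, η x = η' x) → η ∈ Aw w → η' ∈ Aw w := by
    intro w η η' h hη
    have h1 := (hBZ R J hJ T ε hTpos u C (z w) hC).2.2.1 η η' h
    show c ≤ bz R J (fun x => ε * η' x) T u C (z w)
    rw [← h1]
    exact hη
  have hXl : ∀ w, ∀ η η' : Site → ℝ, (∀ x ∈ eb (z w) r, η x = η' x) → η ∈ X w → η' ∈ X w := by
    intro w
    exact shift_local (hAwl w)
  have hAwP : ∀ w, δ₀ ≤ (gam (Aw w)).toReal := by
    intro w
    have h1 := (hBZ R J hJ T ε hTpos u C (z w) hC).2.2.2.2 c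
    show δ₀ ≤ (gam {η | c ≤ bz R J (fun x => ε * η x) T u C (z w)}).toReal
    rw [h1]
    exact hδ
  have hXP : ∀ w, δ₀ ^ 2 / 2 ≤ (gam (X w)).toReal := by
    intro w
    have h1 := hGL V (eb (z w) r) s (Aw w) (hAwm w) (hAwl w)
    have h2 : s ^ 2 * ((eb (z w) r).card : ℝ) ≤ 1 / 2 := by
      have h3 : s ^ 2 ≤ (A / (n * u)) ^ 2 := by
        rw [← sq_abs s]
        exact pow_le_pow_left₀ (abs_nonneg s) hs 2
      calc s ^ 2 * ((eb (z w) r).card : ℝ) ≤ (A / (n * u)) ^ 2 * (9 * (r : ℝ) ^ 2) :=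
            mul_le_mul h3 (eb_card _ _ hr1) (Nat.cast_nonneg _) (by positivity)
        _ = 9 * (A * C) ^ 2 / (n : ℝ) ^ 2 := by
            rw [hr]
            push_cast
            field_simp
        _ ≤ 1 / 2 := by
            rw [div_le_div_iff₀ (by positivity) (by norm_num)]
            nlinarith [pow_le_pow_left₀ (by positivity : (0 : ℝ) ≤ 5 * A * (C : ℝ)) hn2 2]
    have h3 : Real.exp (s ^ 2 * ((eb (z w) r).card : ℝ)) ≤ 2 := by
      refine (Real.exp_le_exp.2 h2).trans ?_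
      have h4 : Real.exp (1 / 2) ^ 2 = Real.exp 1 := by
        rw [← Real.exp_nat_mul]
        norm_num
      have h5 := Real.exp_one_lt_d9
      nlinarith [Real.exp_pos (1 / 2 : ℝ)]
    have h4 : (0 : ℝ) ≤ (gam (X w)).toReal := ENNReal.toReal_nonneg
    have h5 := pow_le_pow_left₀ hδ0.le (hAwP w) 2
    have h6 : (gam (Aw w)).toReal ^ 2 ≤ 2 * (gam (X w)).toReal :=
      h1.trans (mul_le_mul_of_nonneg_right h3 h4)
    linarith
  have hXind : ∀ w ∈ I, ∀ w' ∈ I, w ≠ w' → gam (X w ∩ X w') = gam (X w) * gam (X w') := by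
    intro w _ w' _ hne
    exact ind_two hIND (eb_disj hr1 hne) (hXm w) (hXm w') (hXl w) (hXl w')
  have hch := hCHB (Site → ℝ) gam I X (δ₀ ^ 2 / 2) (fun y _ => hXm y) (by positivity)
    (fun y _ => hXP y) hXind
  set G : Set (Site → ℝ) := {ω | ∃ S : Finset Site, S ⊆ I ∧ (∀ y ∈ S, ω ∈ X y) ∧
    δ₀ ^ 2 / 2 * (I.card : ℝ) / 2 ≤ (S.card : ℝ)} with hG
  have hGP : 99 / 100 ≤ (gam G).toReal := by
    have h1 : 4 / (δ₀ ^ 2 / 2 * (I.card : ℝ)) ≤ 1 / 100 := by
      rw [div_le_div_iff₀ (by positivity) (by norm_num)]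
      rw [div_le_iff₀ (by positivity)] at hIbig
      linarith
    have h2 : 1 - 4 / (δ₀ ^ 2 / 2 * (I.card : ℝ)) ≤ (gam G).toReal := hch
    linarith
  have hGm : MeasurableSet G := by
    have h1 : G = ⋃ S : Finset Site, {ω | S ⊆ I ∧ (∀ y ∈ S, ω ∈ X y) ∧
        δ₀ ^ 2 / 2 * (I.card : ℝ) / 2 ≤ (S.card : ℝ)} := by
      ext ω
      simp only [hG, Set.mem_ofPred_eq, Set.mem_iUnion]
    rw [h1]
    refine MeasurableSet.iUnion fun S => ?_
    by_cases h2 : S ⊆ I ∧ δ₀ ^ 2 / 2 * (I.card : ℝ) / 2 ≤ (S.card : ℝ)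
    · have h3 : {ω | S ⊆ I ∧ (∀ y ∈ S, ω ∈ X y) ∧
          δ₀ ^ 2 / 2 * (I.card : ℝ) / 2 ≤ (S.card : ℝ)} = ⋂ y ∈ S, X y := by
        ext ω
        simp only [Set.mem_ofPred_eq, Set.mem_iInter]
        exact ⟨fun h => h.2.1, fun h => ⟨h2.1, h, h2.2⟩⟩
      rw [h3]
      exact Finset.measurableSet_biInter S fun y _ => hXm y
    · have h3 : {ω | S ⊆ I ∧ (∀ y ∈ S, ω ∈ X y) ∧
          δ₀ ^ 2 / 2 * (I.card : ℝ) / 2 ≤ (S.card : ℝ)} = ∅ := by
        ext ω
        simp only [Set.mem_ofPred_eq, Set.mem_empty_iff_false, iff_false]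
        exact fun h => h2 ⟨h.1, h.2.2⟩
      rw [h3]
      exact MeasurableSet.empty
  -- failing shields
  let QS : Site → (Site → ℝ) → ℝ := fun w η =>
    QP R J (fun x => ε * shf V s η x) T Λ (fun D ω => Shield (clu Λ D ω) (z w) u C)
  let f : Site → (Site → ℝ) → ℝ := fun w η => 1 - QS w η
  have hQP : ∀ (η : Site → ℝ) (w : Site), 0 ≤ QS w η ∧ QS w η ≤ 1 := by
    intro η w
    exact ⟨QP_nonneg hJ _ hTpos Λ _, QP_le_one hJ _ hTpos Λ _⟩
  have hfm : ∀ w, Measurable (f w) := by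
    intro w
    have h2 : Measurable (fun (η : Site → ℝ) (x : Site) => ε * shf V s η x) := by
      rw [measurable_pi_iff]
      intro x
      exact ((measurable_pi_apply x).comp (shf_meas V s)).const_mul ε
    exact measurable_const.sub
      ((((hCNT R J T hTpos Λ).2.1 (fun D ω => Shield (clu Λ D ω) (z w) u C)).measurable).comp h2)
  have hf0 : ∀ w η, 0 ≤ f w η := fun w η => sub_nonneg.2 (hQP η w).2
  have hf1 : ∀ w η, f w η ≤ 1 := by
    intro w η
    have := (hQP η w).1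
    simp only [f]
    linarith
  have hfi : ∀ w, Integrable (f w) gam := by
    intro w
    refine Integrable.of_bound (hfm w).aestronglyMeasurable 1 (Filter.Eventually.of_forall ?_)
    intro η
    rw [Real.norm_eq_abs, abs_of_nonneg (hf0 w η)]
    exact hf1 w η
  have hfP : ∀ w ∈ I, ∫ η, f w η ∂gam ≤ δ₀ ^ 2 / 3200 := fun w hw =>
    hshield (z w) (hYV w hw)
  let NF : (Site → ℝ) → ℝ := fun η => ∑ w ∈ I, f w η
  have hNFm : Measurable NF := Finset.measurable_sum I fun w _ => hfm w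
  have hNFi : Integrable NF gam := integrable_finsetSum _ fun w _ => hfi w
  have hNFI : ∫ η, NF η ∂gam ≤ (I.card : ℝ) * (δ₀ ^ 2 / 3200) := by
    simp only [NF]
    rw [integral_finsetSum _ fun w _ => hfi w]
    refine (Finset.sum_le_sum hfP).trans (le_of_eq ?_)
    rw [Finset.sum_const, nsmul_eq_mul]
  have hNF0 : ∀ η, 0 ≤ NF η := fun η => Finset.sum_nonneg fun w _ => hf0 w η
  set B : Set (Site → ℝ) := {η | δ₀ ^ 2 / 16 * (I.card : ℝ) < NF η} with hB
  have hBm : MeasurableSet B := measurableSet_lt measurable_const hNFm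
  have hBP : (gam B).toReal ≤ 1 / 200 := by
    have h1 : (gam B).toReal * (δ₀ ^ 2 / 16 * (I.card : ℝ)) ≤ (I.card : ℝ) * (δ₀ ^ 2 / 3200) := by
      refine le_trans ?_ hNFI
      have h1 : (gam B).toReal * (δ₀ ^ 2 / 16 * (I.card : ℝ)) =
          ∫ η, B.indicator (fun _ => δ₀ ^ 2 / 16 * (I.card : ℝ)) η ∂gam := by
        rw [integral_indicator hBm]
        simp [Measure.real]
      rw [h1]
      refine integral_mono ((integrable_const _).indicator hBm) hNFi fun η => ?_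
      by_cases h : η ∈ B
      · rw [Set.indicator_of_mem h]
        exact le_of_lt h
      · rw [Set.indicator_of_notMem h]
        exact hNF0 η
    have h2 : (0 : ℝ) < δ₀ ^ 2 / 16 * (I.card : ℝ) := by positivity
    have h3 : (gam B).toReal * (δ₀ ^ 2 / 16 * (I.card : ℝ)) ≤
        1 / 200 * (δ₀ ^ 2 / 16 * (I.card : ℝ)) := by linarith
    exact le_of_mul_le_mul_right h3 h2
  -- the deterministic part
  have hdet : (Gᶜ ∪ B)ᶜ ⊆ {η | δ₀ ^ 2 / 16 * ((n : ℝ) ^ 2 / (100 * (C : ℝ) ^ 2)) *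
        (c * u / (R * Jt R J)) ≤
      ∑ x ∈ V, inf1 R J (fun x => ε * shf V s η x) T Λ x} := by
    intro η hη
    rw [Set.compl_union, compl_compl, Set.mem_inter_iff, Set.mem_compl_iff] at hη
    obtain ⟨⟨S, hSI, hSX, hSc⟩, hηB⟩ := hη
    have hηB' : NF η ≤ δ₀ ^ 2 / 16 * (I.card : ℝ) := not_lt.1 hηB
    set g : Site → ℝ := fun x => ε * shf V s η x with hg
    -- the good cells
    let S' : Finset Site := S.filter (fun w => 1 / 2 ≤ QS w η)
    have hS'c : δ₀ ^ 2 / 8 * (I.card : ℝ) ≤ (S'.card : ℝ) := by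
      have h1 : (S.card : ℝ) = (S'.card : ℝ) + ((S.filter (fun w => ¬ 1 / 2 ≤ QS w η)).card : ℝ) := by
        have h2 := Finset.card_filter_add_card_filter_not (s := S) (fun w => 1 / 2 ≤ QS w η)
        rw [← h2]
        push_cast
        ring
      have h2 : ((S.filter (fun w => ¬ 1 / 2 ≤ QS w η)).card : ℝ) ≤ 2 * NF η := by
        calc ((S.filter (fun w => ¬ 1 / 2 ≤ QS w η)).card : ℝ)
            = ∑ w ∈ S.filter (fun w => ¬ 1 / 2 ≤ QS w η), (1 : ℝ) := by
              rw [Finset.sum_const, nsmul_eq_mul, mul_one]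
          _ ≤ ∑ w ∈ S.filter (fun w => ¬ 1 / 2 ≤ QS w η), 2 * f w η := by
              refine Finset.sum_le_sum fun w hw => ?_
              have h3 : QS w η < 1 / 2 := not_le.1 (Finset.mem_filter.1 hw).2
              simp only [f]
              linarith
          _ ≤ ∑ w ∈ I, 2 * f w η := by
              refine Finset.sum_le_sum_of_subset_of_nonneg
                ((Finset.filter_subset _ _).trans hSI) fun w _ _ => ?_
              have := hf0 w η
              linarith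
          _ = 2 * NF η := by rw [← Finset.mul_sum]
      linarith
    let Tw : Site → Finset Site := fun w => eb (z w) (10 * u) \ eb (z w) (5 * u)
    have hTw1 : ∀ w ∈ S', Tw w ⊆ V := by
      intro w hw x hx
      have h4 := (Finset.mem_sdiff.1 hx).1
      have h6 : x ∈ eb (z w) r := Pool.Agent.H65.RFZ.QUPG.eb_mono _ (by
        rw [hr]
        exact Nat.mul_le_mul_right _ (by omega)) h4
      exact hYV w (hSI (Finset.mem_filter.1 hw).1) h6
    have hinf0 : ∀ x ∈ V, 0 ≤ inf1 R J g T Λ x := fun x hx =>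
      (((hINF R J hJ g T hTpos).1 Λ x (hVΛ hx)).2).1
    have hRJ : 0 < (R : ℝ) * Jt R J := mul_pos hRpos hJt
    have hTw2 : ∀ w ∈ S', 1 / 2 * (c * u / (R * Jt R J)) ≤ ∑ x ∈ Tw w, inf1 R J g T Λ x := by
      intro w hw
      obtain ⟨hwS, hwQ⟩ := Finset.mem_filter.1 hw
      have h2 : c ≤ bz R J g T u C (z w) := hSX w hwS
      have h3 : c * u / (R * Jt R J) ≤
          ∑ x ∈ eb (z w) (10 * u) \ eb (z w) (5 * u), inf1 R J g T (eb (z w) (C * u)) x := by
        unfold bz at h2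
        rw [div_le_iff₀ hRJ]
        have h5 : c * u ≤ (R * Jt R J / u *
            ∑ x ∈ eb (z w) (10 * u) \ eb (z w) (5 * u), inf1 R J g T (eb (z w) (C * u)) x) * u :=
          mul_le_mul_of_nonneg_right h2 hu0.le
        refine h5.trans (le_of_eq ?_)
        field_simp
      calc 1 / 2 * (c * u / (R * Jt R J)) ≤ 1 / 2 *
            ∑ x ∈ eb (z w) (10 * u) \ eb (z w) (5 * u), inf1 R J g T (eb (z w) (C * u)) x :=
            mul_le_mul_of_nonneg_left h3 (by norm_num)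
        _ = ∑ x ∈ Tw w, 1 / 2 * inf1 R J g T (eb (z w) (C * u)) x := by rw [Finset.mul_sum]
        _ ≤ ∑ x ∈ Tw w, inf1 R J g T Λ x := by
            refine Finset.sum_le_sum fun x hx => ?_
            have h4 := (Finset.mem_sdiff.1 hx).1
            have h5 : x ∈ eb (z w) (12 * u) := Pool.Agent.H65.RFZ.QUPG.eb_mono _ (by omega) h4
            have h6 : x ∈ eb (z w) (C * u) := Pool.Agent.H65.RFZ.QUPG.eb_mono _
              (Nat.mul_le_mul_right _ (by omega)) h4
            have h7 := hSHI R J hJ hT g T hTpos Λ (z w) u C hC hu1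
              ((hYV w (hSI hwS)).trans hVΛ) x h5
            have h8 : 0 ≤ inf1 R J g T (eb (z w) (C * u)) x :=
              (((hINF R J hJ g T hTpos).1 (eb (z w) (C * u)) x h6).2).1
            exact (mul_le_mul_of_nonneg_right hwQ h8).trans h7
    have hTw3 : (↑S' : Set Site).PairwiseDisjoint Tw := by
      intro w _ w' _ hne
      have h1 := eb_disj hr1 hne
      have h2 : ∀ w, Tw w ⊆ eb (z w) r := by
        intro w x hx
        refine Pool.Agent.H65.RFZ.QUPG.eb_mono _ ?_ (Finset.mem_sdiff.1 hx).1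
        rw [hr]
        exact Nat.mul_le_mul_right _ (by omega)
      exact Finset.disjoint_of_subset_left (h2 w) (Finset.disjoint_of_subset_right (h2 w') h1)
    have hsum : ∑ w ∈ S', ∑ x ∈ Tw w, inf1 R J g T Λ x ≤ ∑ x ∈ V, inf1 R J g T Λ x := by
      rw [← Finset.sum_biUnion hTw3]
      refine Finset.sum_le_sum_of_subset_of_nonneg (Finset.biUnion_subset.2 hTw1)
        fun x hx _ => hinf0 x hx
    have hq0 : 0 ≤ c * u / (R * Jt R J) := div_nonneg (by positivity) hRJ.le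
    show δ₀ ^ 2 / 16 * ((n : ℝ) ^ 2 / (100 * (C : ℝ) ^ 2)) * (c * u / (R * Jt R J)) ≤
      ∑ x ∈ V, inf1 R J g T Λ x
    calc δ₀ ^ 2 / 16 * ((n : ℝ) ^ 2 / (100 * (C : ℝ) ^ 2)) * (c * u / (R * Jt R J)) ≤
          δ₀ ^ 2 / 16 * (I.card : ℝ) * (c * u / (R * Jt R J)) := by
          refine mul_le_mul_of_nonneg_right ?_ hq0
          exact mul_le_mul_of_nonneg_left hIn (by positivity)
      _ = (δ₀ ^ 2 / 8 * (I.card : ℝ)) * (1 / 2 * (c * u / (R * Jt R J))) := by ring
      _ ≤ (S'.card : ℝ) * (1 / 2 * (c * u / (R * Jt R J))) :=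
          mul_le_mul_of_nonneg_right hS'c (by positivity)
      _ = ∑ _w ∈ S', (1 / 2 * (c * u / (R * Jt R J))) := by rw [Finset.sum_const, nsmul_eq_mul]
      _ ≤ ∑ w ∈ S', ∑ x ∈ Tw w, inf1 R J g T Λ x := Finset.sum_le_sum hTw2
      _ ≤ _ := hsum
  have h1 : (gam (Gᶜ ∪ B)).toReal ≤ 1 / 100 + 1 / 200 := by
    have h2 : (gam (Gᶜ ∪ B)).toReal ≤ (gam Gᶜ).toReal + (gam B).toReal := by
      rw [← ENNReal.toReal_add (measure_ne_top _ _) (measure_ne_top _ _)]
      exact ENNReal.toReal_mono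
        (ENNReal.add_ne_top.2 ⟨measure_ne_top _ _, measure_ne_top _ _⟩) (measure_union_le _ _)
    have h3 : (gam Gᶜ).toReal = 1 - (gam G).toReal := probReal_compl_eq_one_sub hGm
    linarith
  have h2 : (gam (Gᶜ ∪ B)ᶜ).toReal = 1 - (gam (Gᶜ ∪ B)).toReal :=
    probReal_compl_eq_one_sub (hGm.compl.union hBm)
  have h3 := ENNReal.toReal_mono (measure_ne_top gam _) (measure_mono hdet)
  linarith

end Pool.Agent.H70.RFT
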